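import Pool.Agent.H63.G3.Stm

/-!
# Orthogonality for the Weyl density of `U(3)` (task WEYL of helper63; helper980)
-/

set_option autoImplicit false

namespace Pool.Agent.H980.G3

open Finset ComplexConjugate MeasureTheory
open Pool.Agent.H63.G3

/-- the complete homogeneous symmetric polynomial as an iterated sum -/
lemma hc_eq (a : ℕ) (x : Fin 3 → ℂ) :
    hc a x = ∑ j ∈ range (a + 1), x 1 ^ j * ∑ k ∈ range (a - j + 1), x 2 ^ k * x 0 ^ (a - j - k) := by
  unfold hc tri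
  rw [Finset.sum_filter, Finset.sum_product]
  refine Finset.sum_congr rfl fun j hj => ?_
  rw [Finset.mem_range] at hj
  rw [← Finset.sum_filter, Finset.mul_sum]
  have h : (range (a + 1)).filter (fun k => j + k ≤ a) = range (a - j + 1) := by
    ext k
    simp only [Finset.mem_filter, Finset.mem_range]
    omega
  simp only
  rw [h]
  refine Finset.sum_congr rfl fun k _ => ?_
  unfold mono
  ring

/-- the Vandermonde product -/
def Dl (x : Fin 3 → ℂ) : ℂ := (x 0 - x 1) * (x 0 - x 2) * (x 1 - x 2)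

/-- the alternant -/
def Al (a : ℕ) (x : Fin 3 → ℂ) : ℂ :=
  x 0 ^ (a + 2) * (x 1 - x 2) - x 1 ^ (a + 2) * (x 0 - x 2) + x 2 ^ (a + 2) * (x 0 - x 1)

lemma hc_mul (a : ℕ) (x : Fin 3 → ℂ) : hc a x * Dl x = Al a x := by
  have h1 : hc a x * (x 0 - x 2) =
      ∑ j ∈ range (a + 1), x 1 ^ j * (x 0 ^ (a - j + 1) - x 2 ^ (a - j + 1)) := by
    rw [hc_eq, Finset.sum_mul]
    refine Finset.sum_congr rfl fun j _ => ?_
    have h2 := geom_sum₂_mul (x 2) (x 0) (a - j + 1)
    simp only [Nat.add_sub_cancel] at h2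
    linear_combination (-x 1 ^ j) * h2
  have h2 : (∑ j ∈ range (a + 1), x 1 ^ j * x 0 ^ (a - j + 1)) * (x 1 - x 0) =
      x 0 * (x 1 ^ (a + 1) - x 0 ^ (a + 1)) := by
    have h3 := geom_sum₂_mul (x 1) (x 0) (a + 1)
    rw [← h3, Finset.sum_mul, Finset.sum_mul, Finset.mul_sum]
    refine Finset.sum_congr rfl fun j _ => ?_
    rw [Nat.add_sub_cancel, pow_succ]
    ring
  have h4 : (∑ j ∈ range (a + 1), x 1 ^ j * x 2 ^ (a - j + 1)) * (x 1 - x 2) =
      x 2 * (x 1 ^ (a + 1) - x 2 ^ (a + 1)) := by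
    have h3 := geom_sum₂_mul (x 1) (x 2) (a + 1)
    rw [← h3, Finset.sum_mul, Finset.sum_mul, Finset.mul_sum]
    refine Finset.sum_congr rfl fun j _ => ?_
    rw [Nat.add_sub_cancel, pow_succ]
    ring
  have h5 : hc a x * (x 0 - x 2) = (∑ j ∈ range (a + 1), x 1 ^ j * x 0 ^ (a - j + 1)) -
      ∑ j ∈ range (a + 1), x 1 ^ j * x 2 ^ (a - j + 1) := by
    rw [h1, ← Finset.sum_sub_distrib]
    refine Finset.sum_congr rfl fun j _ => ?_
    ring
  unfold Dl Al
  linear_combination (x 0 - x 1) * (x 1 - x 2) * h5 - (x 1 - x 2) * h2 - (x 0 - x 1) * h4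

lemma mon_add (n m : Fin 3 → ℤ) (t : Fin 3 → ℝ) : mon n t * mon m t = mon (n + m) t := by
  unfold mon
  rw [← Complex.exp_add, ← add_mul, ← Complex.ofReal_add, ← Finset.sum_add_distrib]
  congr 3
  refine Finset.sum_congr rfl fun i _ => ?_
  rw [Pi.add_apply]
  push_cast
  ring

lemma mon_conj (n : Fin 3 → ℤ) (t : Fin 3 → ℝ) : conj (mon n t) = mon (-n) t := by
  unfold mon
  rw [← Complex.exp_conj, map_mul, Complex.conj_ofReal, Complex.conj_I, mul_neg, ← neg_mul,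
    ← Complex.ofReal_neg, ← Finset.sum_neg_distrib]
  congr 3
  refine Finset.sum_congr rfl fun i _ => ?_
  rw [Pi.neg_apply]
  push_cast
  ring

/-- the exponents of the alternant -/
def V (a : ℕ) : Fin 6 → Fin 3 → ℤ :=
  ![![a + 2, 1, 0], ![a + 2, 0, 1], ![1, a + 2, 0], ![0, a + 2, 1], ![1, 0, a + 2], ![0, 1, a + 2]]

/-- the signs -/
def sn : Fin 6 → ℂ := ![1, -1, -1, 1, 1, -1]

lemma mon3 (p q r : ℕ) (t : Fin 3 → ℝ) :
    mon ![(p : ℤ), (q : ℤ), (r : ℤ)] t = ex t 0 ^ p * ex t 1 ^ q * ex t 2 ^ r := by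
  unfold mon ex
  rw [← Complex.exp_nat_mul, ← Complex.exp_nat_mul, ← Complex.exp_nat_mul, ← Complex.exp_add,
    ← Complex.exp_add]
  congr 1
  simp only [Fin.sum_univ_three, Matrix.cons_val_zero, Matrix.cons_val_one, Matrix.cons_val]
  push_cast
  ring

lemma Al_eq (a : ℕ) (t : Fin 3 → ℝ) : Al a (ex t) = ∑ i, sn i * mon (V a i) t := by
  have e1 := mon3 (a + 2) 1 0 t
  have e2 := mon3 (a + 2) 0 1 t
  have e3 := mon3 1 (a + 2) 0 t
  have e4 := mon3 0 (a + 2) 1 t
  have e5 := mon3 1 0 (a + 2) t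
  have e6 := mon3 0 1 (a + 2) t
  push_cast at e1 e2 e3 e4 e5 e6
  simp only [Fin.sum_univ_succ, Fin.sum_univ_zero, sn, V, Matrix.cons_val_zero, Matrix.cons_val_succ,
    Fin.isValue]
  rw [e1, e2, e3, e4, e5, e6]
  unfold Al
  ring

lemma V_zero (a b : ℕ) (c : ℤ) (i j : Fin 6) :
    V a i + -V b j + (fun _ => c) = 0 ↔ i = j ∧ a = b ∧ c = 0 := by
  rw [funext_iff]
  simp only [Fin.forall_fin_succ, Pi.add_apply, Pi.neg_apply, Pi.zero_apply]
  fin_cases i <;> fin_cases j <;> simp [V] <;> omega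

/-- one variable -/
lemma one_var (m : ℤ) : ∫ s in Set.Icc (0 : ℝ) (2 * Real.pi), Complex.exp ((((m : ℝ) * s : ℝ) : ℂ) *
    Complex.I) = if m = 0 then ((2 * Real.pi : ℝ) : ℂ) else 0 := by
  rw [integral_Icc_eq_integral_Ioc, ← intervalIntegral.integral_of_le (by positivity)]
  split_ifs with h
  · subst h
    simp
  · have hc : ((m : ℂ) * Complex.I) ≠ 0 := mul_ne_zero (by exact_mod_cast h) Complex.I_ne_zero
    have h1 : ∀ s : ℝ, Complex.exp ((((m : ℝ) * s : ℝ) : ℂ) * Complex.I) =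
        Complex.exp ((m : ℂ) * Complex.I * s) := by
      intro s
      congr 1
      push_cast
      ring
    simp only [h1]
    rw [integral_exp_mul_complex hc]
    have h2 : (m : ℂ) * Complex.I * ((2 * Real.pi : ℝ) : ℂ) = (m : ℂ) * (2 * Real.pi * Complex.I) := by
      push_cast
      ring
    rw [h2, Complex.exp_int_mul_two_pi_mul_I]
    simp

lemma mon_prod (n : Fin 3 → ℤ) (t : Fin 3 → ℝ) :
    mon n t = ∏ i, Complex.exp ((((n i : ℝ) * t i : ℝ) : ℂ) * Complex.I) := by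
  unfold mon
  rw [← Complex.exp_sum]
  congr 1
  rw [← Finset.sum_mul]
  push_cast
  rfl

lemma int_mon (n : Fin 3 → ℤ) : ∫ t in Set.Icc (0 : Fin 3 → ℝ) (fun _ => 2 * Real.pi), mon n t =
    if n = 0 then (((2 * Real.pi) ^ 3 : ℝ) : ℂ) else 0 := by
  have h1 : Set.Icc (0 : Fin 3 → ℝ) (fun _ => 2 * Real.pi) =
      Set.pi Set.univ (fun _ => Set.Icc (0 : ℝ) (2 * Real.pi)) := by
    rw [← Set.pi_univ_Icc]
    rfl
  simp only [mon_prod]
  rw [h1, volume_pi, Measure.restrict_pi_pi, integral_fintype_prod_eq_prod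
    (f := fun i (s : ℝ) => Complex.exp ((((n i : ℝ) * s : ℝ) : ℂ) * Complex.I))]
  simp only [one_var]
  split_ifs with h
  · subst h
    simp
  · obtain ⟨i, hi⟩ : ∃ i, n i ≠ 0 := by
      by_contra hcon
      push Not at hcon
      exact h (funext hcon)
    exact Finset.prod_eq_zero (Finset.mem_univ i) (if_neg hi)

lemma mon_cont (n : Fin 3 → ℤ) : Continuous (mon n) := by
  unfold mon
  fun_prop

lemma norm_sq' (z : ℂ) : ((‖z‖ ^ 2 : ℝ) : ℂ) = z * conj z := by
  rw [Complex.mul_conj, Complex.normSq_eq_norm_sq]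

lemma dens (t : Fin 3 → ℝ) : (weylDensity t : ℂ) = 1 / 6 * (Dl (ex t) * conj (Dl (ex t))) := by
  have e : (weylDensity t : ℂ) = 1 / 6 * (((‖ex t 0 - ex t 1‖ ^ 2 : ℝ) : ℂ) *
      ((‖ex t 0 - ex t 2‖ ^ 2 : ℝ) : ℂ) * ((‖ex t 1 - ex t 2‖ ^ 2 : ℝ) : ℂ)) := by
    unfold weylDensity
    push_cast
    ring
  rw [e, norm_sq', norm_sq', norm_sq']
  unfold Dl
  rw [map_mul, map_mul]
  ring

lemma integrand (a b : ℕ) (c : ℤ) (t : Fin 3 → ℝ) : bas a b c t * (weylDensity t : ℂ) =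
    ∑ i, ∑ j, 1 / 6 * (sn i * conj (sn j)) * mon (V a i + -V b j + (fun _ => c)) t := by
  have h1 : Complex.exp ((c * (t 0 + t 1 + t 2) : ℝ) * Complex.I) = mon (fun _ => c) t := by
    unfold mon
    congr 3
    rw [Fin.sum_univ_three]
    ring
  have h2 : bas a b c t * (weylDensity t : ℂ) =
      1 / 6 * (Al a (ex t) * conj (Al b (ex t)) * mon (fun _ => c) t) := by
    rw [← hc_mul, ← hc_mul, dens, ← h1, map_mul]
    unfold bas
    ring
  rw [h2, Al_eq, Al_eq, map_sum, Finset.sum_mul_sum, Finset.sum_mul, Finset.mul_sum]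
  refine Finset.sum_congr rfl fun i _ => ?_
  rw [Finset.sum_mul, Finset.mul_sum]
  refine Finset.sum_congr rfl fun j _ => ?_
  rw [map_mul, mon_conj, ← mon_add, ← mon_add]
  ring

theorem t_weyl : S_WEYL := by
  intro a b c
  unfold haar
  simp only [integrand]
  have hint : ∀ n : Fin 3 → ℤ, IntegrableOn (mon n)
      (Set.Icc (0 : Fin 3 → ℝ) (fun _ => 2 * Real.pi)) := fun n =>
    (mon_cont n).continuousOn.integrableOn_compact isCompact_Icc
  rw [integral_finsetSum _ (fun i _ => integrable_finsetSum _ (fun j _ => (hint _).const_mul _))]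
  have h1 : ∀ i : Fin 6, ∫ t in Set.Icc (0 : Fin 3 → ℝ) (fun _ => 2 * Real.pi),
      ∑ j, 1 / 6 * (sn i * conj (sn j)) * mon (V a i + -V b j + (fun _ => c)) t =
      1 / 6 * (sn i * conj (sn i)) * (if a = b ∧ c = 0 then (((2 * Real.pi) ^ 3 : ℝ) : ℂ) else 0) := by
    intro i
    rw [integral_finsetSum _ (fun j _ => (hint _).const_mul _)]
    simp only [integral_const_mul, int_mon, V_zero]
    rw [Finset.sum_eq_single i]
    · simp only [true_and]
    · intro j _ hj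
      rw [if_neg (fun h => hj h.1.symm), mul_zero]
    · intro h
      exact absurd (Finset.mem_univ i) h
  simp only [h1]
  have h2 : ∀ i : Fin 6, sn i * conj (sn i) = 1 := by
    intro i
    fin_cases i <;> simp [sn]
  simp only [h2]
  rw [Finset.sum_const, Finset.card_univ, Fintype.card_fin]
  have hpi : ((2 * Real.pi) ^ 3 : ℝ) ≠ 0 := by positivity
  have hpi' : (((2 * Real.pi) ^ 3 : ℝ) : ℂ) ≠ 0 := by exact_mod_cast hpi
  split_ifs with h
  · rw [one_div, Complex.ofReal_inv, nsmul_eq_mul]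
    field_simp
    norm_num
  · simp

end Pool.Agent.H980.G3
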